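import Pool.Agent.H90.STE.Stmts

/-!
# STE: row TV (the trivial inequality)
-/

set_option autoImplicit false

namespace Pool.STE

open Finset Real
open Pool.Agent.H49.Ent Pool.Agent.H32.Dense Pool.STK Pool.KA

namespace TV40

lemma Ex_const {Ω : Type} [Fintype Ω] {p : Ω → ℝ} (h1 : ∑ ω, p ω = 1) (c : ℝ) :
    Ex p (fun _ => c) = c := by
  unfold Ex
  rw [← Finset.sum_mul, h1, one_mul]

lemma fl_bound {m : ℕ} (d : Fin m → ℝ) (hd : ∀ i, |d i| ≤ 1) (J : ℕ) (i : Fin m) :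
    -(2 : ℝ) ^ J ≤ ((fl J d i : ℤ) : ℝ) ∧ ((fl J d i : ℤ) : ℝ) ≤ 2 ^ J := by
  have hp : (0 : ℝ) < 2 ^ J := by positivity
  have hb := abs_le.mp (hd i)
  unfold fl rd
  constructor
  · have h : (-(2 : ℤ) ^ J) ≤ ⌊(2 : ℝ) ^ J * d i⌋ := by
      apply Int.le_floor.mpr
      push_cast
      nlinarith [hb.1]
    have := (Int.cast_le (R := ℝ)).mpr h
    push_cast at this
    exact this
  · calc ((⌊(2 : ℝ) ^ J * d i⌋ : ℤ) : ℝ) ≤ (2 : ℝ) ^ J * d i := Int.floor_le _
      _ ≤ 2 ^ J := by nlinarith [hb.2]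

lemma cc_nn (m : ℕ) : 0 ≤ cc m := by
  unfold cc
  positivity

lemma log5 : Real.log 5 ≤ 2 := by
  have h1 : Real.log 5 ≤ Real.log 8 := Real.log_le_log (by norm_num) (by norm_num)
  have h2 : Real.log 8 = 3 * Real.log 2 := by
    have : (8 : ℝ) = 2 ^ 3 := by norm_num
    rw [this, Real.log_pow]
    norm_num
  have h3 := Real.log_two_lt_d9
  have h4 : Real.log 5 ≤ 1.61 + 0.5 := by linarith
  -- a sharper bound
  have h5 : Real.log 5 = Real.log 4 + Real.log (5 / 4) := by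
    rw [← Real.log_mul (by norm_num) (by norm_num)]
    norm_num
  have h6 : Real.log 4 = 2 * Real.log 2 := by
    have : (4 : ℝ) = 2 ^ 2 := by norm_num
    rw [this, Real.log_pow]
    norm_num
  have h7 : Real.log (5 / 4) ≤ 5 / 4 - 1 := Real.log_le_sub_one_of_pos (by norm_num)
  linarith

end TV40

theorem tv : TVStmt := by
  intro m a ha
  refine ⟨1, one_pos, 1, one_pos, 2 * m, ?_⟩
  intro J hJ F _ _
  have hp := F.isLaw
  have hX : 0 ≤ CH F.p (F.X J) F.W := CH_nonneg hp.nonneg _ _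
  have h1 := CH_le_vec hp.nonneg hp.sum_one (F.D J) F.Z (fun _ => 2 * (2 : ℝ) ^ J)
    (fun ω ω' _ _ _ i => by
      have h1 := TV40.fl_bound (F.d ω) (F.dir ω) J i
      have h2 := TV40.fl_bound (F.d ω') (F.dir ω') J i
      unfold Fam.D
      push_cast
      rw [abs_le]
      constructor <;> linarith [h1.1, h1.2, h2.1, h2.2])
  rw [TV40.Ex_const hp.sum_one] at h1
  have h2J : (1 : ℝ) ≤ 2 ^ J := one_le_pow₀ (by norm_num)
  have h2 : Real.log (2 * (2 * (2 : ℝ) ^ J) + 1) ≤ J * Real.log 2 + Real.log 5 := by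
    have h3 : (J : ℝ) * Real.log 2 + Real.log 5 = Real.log (2 ^ J * 5) := by
      rw [Real.log_mul (by positivity) (by norm_num), Real.log_pow]
    rw [h3]
    apply Real.log_le_log (by positivity)
    linarith
  have hm : (0 : ℝ) ≤ m := Nat.cast_nonneg m
  have h3 : (m : ℝ) * Real.log (2 * (2 * (2 : ℝ) ^ J) + 1) ≤
      m * (J * Real.log 2 + Real.log 5) := mul_le_mul_of_nonneg_left h2 hm
  have h4 : (m : ℝ) * Real.log 5 ≤ J := by
    have h5 : (m : ℝ) * Real.log 5 ≤ m * 2 := mul_le_mul_of_nonneg_left TV40.log5 hm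
    have h6 : ((2 * m : ℕ) : ℝ) ≤ (J : ℝ) := by exact_mod_cast hJ
    push_cast at h6
    linarith
  have h7 : 0 ≤ a * CH F.p (F.X J) F.W := mul_nonneg (by linarith) hX
  have h8 : 0 ≤ cc m * J := mul_nonneg (TV40.cc_nn m) (Nat.cast_nonneg J)
  have h9 : (m : ℝ) * (J * Real.log 2 + Real.log 5) ≤ (m * Real.log 2 + cc m + 1) * J := by
    calc (m : ℝ) * (J * Real.log 2 + Real.log 5)
        = m * Real.log 2 * J + m * Real.log 5 := by ring
      _ ≤ m * Real.log 2 * J + J := by linarith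
      _ ≤ (m * Real.log 2 + cc m + 1) * J := by nlinarith
  linarith

end Pool.STE
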